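import Mathlib

/-!
# Graphs with exactly `b` irreducible FAT colourings (MP_48b99b_co)

For every `b ≥ 1` there is a connected finite simple graph with exactly `b` irreducible FAT
colourings, counted up to automorphisms. For `b = M + 1 ≥ 2` we blow up the path with five vertices:
the blobs are independent sets of sizes `N, 2, N, 2, N` with `N = 2 M - 1`, and consecutive blobs are
completely joined. Its irreducible FAT colourings are the bipartition and the balanced 2-colourings
with `α = β = 1/2`: these have one vertex of each colour in the small blobs, `x` vertices of the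
first colour in the middle blob, and `N - x` vertices of that colour in the first and in the last
blob. Up to automorphism the balanced colourings are determined by the pair `{x, N - x}`.
-/

set_option autoImplicit false

open SimpleGraph

namespace Pool.Agent.Results.MP_48b99b_co.ExactlyB

section Defs

variable {V : Type}

/-- `deg v`, the number of the neighbours of `v`. -/
noncomputable def dg (G : SimpleGraph V) (v : V) : ℕ := {w | G.Adj v w}.ncard

/-- `e(v, V_i)`, the number of the neighbours of `v` of colour `i`. -/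
noncomputable def nbrs (G : SimpleGraph V) {k : ℕ} (c : V → Fin k) (v : V) (i : Fin k) : ℕ :=
  {w | G.Adj v w ∧ c w = i}.ncard

/-- The `k`-colouring `c` is FAT: there is `α ∈ [0, 1]` such that for `β = 1 - (k - 1) α` every
vertex `v` has `α deg v` neighbours in each class not containing it and `β deg v` neighbours in its
own class. -/
def IsFAT (G : SimpleGraph V) {k : ℕ} (c : V → Fin k) : Prop :=
  ∃ α : ℝ, 0 ≤ α ∧ α ≤ 1 ∧ ∀ (v : V) (i : Fin k),
    (c v ≠ i → (nbrs G c v i : ℝ) = α * dg G v) ∧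
    (c v = i → (nbrs G c v i : ℝ) = (1 - ((k : ℝ) - 1) * α) * dg G v)

/-- A partition (equivalence relation) of the vertex set is FAT if it is the partition into the
nonempty colour classes of a FAT colouring. -/
def FATPartition (G : SimpleGraph V) (P : Setoid V) : Prop :=
  ∃ (k : ℕ) (c : V → Fin k), IsFAT G c ∧ Setoid.ker c = P

/-- A FAT partition is irreducible if no other FAT partition is finer. (`Q ≤ P` means that `Q` is
finer than `P`: every class of `P` is a union of classes of `Q`.) -/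
def Irreducible (G : SimpleGraph V) (P : Setoid V) : Prop :=
  FATPartition G P ∧ ∀ Q : Setoid V, FATPartition G Q → Q ≤ P → Q = P

/-- Two irreducible FAT partitions are regarded as the same if an automorphism of the graph maps one
onto the other. -/
def autSetoid (G : SimpleGraph V) : Setoid {P : Setoid V // Irreducible G P} where
  r P Q := ∃ φ : G ≃g G, ∀ x y : V, P.1 x y ↔ Q.1 (φ x) (φ y)
  iseqv := by
    refine ⟨fun P => ⟨Iso.refl, fun x y => Iff.rfl⟩, ?_, ?_⟩
    · rintro P Q ⟨φ, h⟩
      refine ⟨φ.symm, fun x y => ?_⟩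
      rw [h, φ.apply_symm_apply, φ.apply_symm_apply]
    · rintro P Q R ⟨φ, h⟩ ⟨ψ, h'⟩
      refine ⟨φ.trans ψ, fun x y => ?_⟩
      rw [h, h']
      rfl

/-- The number of the irreducible FAT colourings of `G`, as partitions up to automorphisms. -/
noncomputable def numIrreducible (G : SimpleGraph V) : ℕ := Nat.card (Quotient (autSetoid G))

end Defs

/-! ### The graph -/

/-- The vertices: three big blobs with `N` elements and two small blobs with two elements. -/
abbrev Vt (N : ℕ) : Type := (Fin 3 × Fin N) ⊕ (Fin 2 × Fin 2)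

/-- The blow-up of the path `big 0 - small 0 - big 1 - small 1 - big 2`. -/
def Gr (N : ℕ) : SimpleGraph (Vt N) where
  Adj
    | Sum.inl p, Sum.inr q => p.1.val = q.1.val ∨ p.1.val = q.1.val + 1
    | Sum.inr q, Sum.inl p => p.1.val = q.1.val ∨ p.1.val = q.1.val + 1
    | Sum.inl _, Sum.inl _ => False
    | Sum.inr _, Sum.inr _ => False
  symm := ⟨by
    rintro (p | q) (p' | q') h
    · exact h
    · exact h
    · exact h
    · exact h⟩
  loopless := ⟨by
    rintro (p | q) h
    · exact h
    · exact h⟩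

variable {N : ℕ}

theorem adj_lr (i : Fin 3) (a : Fin N) (j b : Fin 2) :
    (Gr N).Adj (Sum.inl (i, a)) (Sum.inr (j, b)) ↔ (i.val = j.val ∨ i.val = j.val + 1) := Iff.rfl

theorem adj_rl (i : Fin 3) (a : Fin N) (j b : Fin 2) :
    (Gr N).Adj (Sum.inr (j, b)) (Sum.inl (i, a)) ↔ (i.val = j.val ∨ i.val = j.val + 1) := Iff.rfl

theorem adj_ll (p q : Fin 3 × Fin N) : (Gr N).Adj (Sum.inl p) (Sum.inl q) ↔ False := Iff.rfl

theorem adj_rr (p q : Fin 2 × Fin 2) : (Gr N).Adj (Sum.inr p) (Sum.inr q) ↔ False := Iff.rfl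

open Classical in
theorem ncard_sum (p : Vt N → Prop) : {w | p w}.ncard = ∑ w, if p w then 1 else 0 := by
  rw [← Finset.card_filter, ← Set.ncard_coe_finset]
  congr 1
  ext w
  simp

open Classical in
/-- number of vertices of colour `t` in the big blob `i` -/
noncomputable def nB {k : ℕ} (c : Vt N → Fin k) (i : Fin 3) (t : Fin k) : ℕ :=
  ∑ a : Fin N, if c (Sum.inl (i, a)) = t then 1 else 0

open Classical in
/-- number of vertices of colour `t` in the small blob `j` -/
noncomputable def nS {k : ℕ} (c : Vt N → Fin k) (j : Fin 2) (t : Fin k) : ℕ :=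
  ∑ b : Fin 2, if c (Sum.inr (j, b)) = t then 1 else 0

theorem nbrs_l {k : ℕ} (c : Vt N → Fin k) (i : Fin 3) (a : Fin N) (t : Fin k) :
    nbrs (Gr N) c (Sum.inl (i, a)) t =
      (if i = 0 then nS c 0 t else if i = 1 then nS c 0 t + nS c 1 t else nS c 1 t) := by
  classical
  unfold nbrs
  rw [ncard_sum, Fintype.sum_sum_type, Fintype.sum_prod_type, Fintype.sum_prod_type]
  simp only [adj_ll, adj_lr, false_and, if_false, Finset.sum_const_zero, zero_add]
  rw [Fin.sum_univ_two]
  fin_cases i <;> simp [nS]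

theorem nbrs_r {k : ℕ} (c : Vt N → Fin k) (j b : Fin 2) (t : Fin k) :
    nbrs (Gr N) c (Sum.inr (j, b)) t =
      (if j = 0 then nB c 0 t + nB c 1 t else nB c 1 t + nB c 2 t) := by
  classical
  unfold nbrs
  rw [ncard_sum, Fintype.sum_sum_type, Fintype.sum_prod_type, Fintype.sum_prod_type]
  simp only [adj_rl, adj_rr, false_and, if_false, Finset.sum_const_zero, add_zero]
  rw [Fin.sum_univ_three]
  fin_cases j <;> simp [nB]

theorem dg_l (i : Fin 3) (a : Fin N) : dg (Gr N) (Sum.inl (i, a)) = if i = 1 then 4 else 2 := by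
  classical
  unfold dg
  rw [ncard_sum, Fintype.sum_sum_type, Fintype.sum_prod_type, Fintype.sum_prod_type]
  simp only [adj_ll, adj_lr, if_false, Finset.sum_const_zero, zero_add]
  rw [Fin.sum_univ_two]
  fin_cases i <;> simp

theorem nbrs_l0 {k : ℕ} (c : Vt N → Fin k) (a : Fin N) (t : Fin k) :
    nbrs (Gr N) c (Sum.inl (0, a)) t = nS c 0 t := by
  rw [nbrs_l]; rfl

theorem nbrs_l1 {k : ℕ} (c : Vt N → Fin k) (a : Fin N) (t : Fin k) :
    nbrs (Gr N) c (Sum.inl (1, a)) t = nS c 0 t + nS c 1 t := by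
  rw [nbrs_l]; rfl

theorem nbrs_l2 {k : ℕ} (c : Vt N → Fin k) (a : Fin N) (t : Fin k) :
    nbrs (Gr N) c (Sum.inl (2, a)) t = nS c 1 t := by
  rw [nbrs_l]; rfl

theorem dg_l0 (a : Fin N) : dg (Gr N) (Sum.inl (0, a)) = 2 := by
  rw [dg_l]; rfl

theorem dg_l1 (a : Fin N) : dg (Gr N) (Sum.inl (1, a)) = 4 := by
  rw [dg_l]; rfl

theorem dg_l2 (a : Fin N) : dg (Gr N) (Sum.inl (2, a)) = 2 := by
  rw [dg_l]; rfl

theorem dg_r (j b : Fin 2) : dg (Gr N) (Sum.inr (j, b)) = 2 * N := by
  classical
  unfold dg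
  rw [ncard_sum, Fintype.sum_sum_type, Fintype.sum_prod_type, Fintype.sum_prod_type]
  simp only [adj_rl, adj_rr, if_false, Finset.sum_const_zero, add_zero]
  rw [Fin.sum_univ_three]
  fin_cases j <;> simp [two_mul]

/-! ### Classification of the FAT colourings -/

/-- The balanced 2-colourings. -/
def Bal (c : Vt N → Fin 2) : Prop :=
  ∀ t, nS c 0 t = 1 ∧ nS c 1 t = 1 ∧ nB c 0 t + nB c 1 t = N ∧ nB c 1 t + nB c 2 t = N

/-- The bipartition. -/
def side : Vt N → Fin 2 := Sum.elim (fun _ => 0) (fun _ => 1)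

theorem nS_pos {k : ℕ} (c : Vt N → Fin k) (j : Fin 2) (t : Fin k) (h : nS c j t ≠ 0) :
    ∃ b, c (Sum.inr (j, b)) = t := by
  classical
  by_contra hcon
  push Not at hcon
  apply h
  unfold nS
  exact Finset.sum_eq_zero fun b _ => if_neg (hcon b)

theorem nS_le {k : ℕ} (c : Vt N → Fin k) (j : Fin 2) (t : Fin k) : nS c j t ≤ 2 := by
  classical
  unfold nS
  calc _ ≤ ∑ _b : Fin 2, 1 := Finset.sum_le_sum fun b _ => by split_ifs <;> omega
    _ = 2 := by simp

theorem nS_const {k : ℕ} (c : Vt N → Fin k) (j : Fin 2) (s t : Fin k)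
    (h : ∀ b, c (Sum.inr (j, b)) = s) : nS c j t = if s = t then 2 else 0 := by
  classical
  unfold nS
  simp only [h]
  split_ifs <;> simp

theorem twin_case (hN : 0 < N) {k : ℕ} (c : Vt N → Fin k) (h : IsFAT (Gr N) c) (u u' : Vt N)
    (hd : dg (Gr N) u = dg (Gr N) u') (hdp : 0 < dg (Gr N) u)
    (hn : ∀ t, nbrs (Gr N) c u t = nbrs (Gr N) c u' t) (hne : c u ≠ c u') :
    k = 2 ∧ ∀ t, nS c 0 t = 1 ∧ nS c 1 t = 1 ∧ nB c 0 t + nB c 1 t = N ∧
      nB c 1 t + nB c 2 t = N := by
  obtain ⟨α, h0, h1, hα⟩ := h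
  have e1 := (hα u (c u)).2 rfl
  have e2 := (hα u' (c u)).1 hne.symm
  rw [hn] at e1
  rw [← hd] at e2
  have hdp' : (0 : ℝ) < dg (Gr N) u := by exact_mod_cast hdp
  have hβ : 1 - ((k : ℝ) - 1) * α = α := by
    have : (1 - ((k : ℝ) - 1) * α) * (dg (Gr N) u : ℝ) = α * (dg (Gr N) u : ℝ) := by
      rw [← e1, ← e2]
    exact mul_right_cancel₀ hdp'.ne' this
  have hk : (k : ℝ) * α = 1 := by linarith
  have hall : ∀ (v : Vt N) (t : Fin k), (nbrs (Gr N) c v t : ℝ) = α * dg (Gr N) v := by
    intro v t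
    by_cases hvt : c v = t
    · rw [(hα v t).2 hvt, hβ]
    · exact (hα v t).1 hvt
  have hk2 : 2 ≤ k := by
    by_contra hlt
    push Not at hlt
    apply hne
    apply Fin.ext
    have := (c u).isLt
    have := (c u').isLt
    omega
  have hα0 : 0 < α := by
    rcases h0.lt_or_eq with h2 | h2
    · exact h2
    · rw [← h2] at hk; norm_num at hk
  obtain ⟨a0⟩ : Nonempty (Fin N) := ⟨⟨0, hN⟩⟩
  have f0 : ∀ t, (nS c 0 t : ℝ) = α * 2 := by
    intro t
    have := hall (Sum.inl (0, a0)) t
    rw [nbrs_l0, dg_l0] at this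
    simpa using this
  have f1 : ∀ t, (nS c 1 t : ℝ) = α * 2 := by
    intro t
    have := hall (Sum.inl (2, a0)) t
    rw [nbrs_l2, dg_l2] at this
    simpa using this
  have hk3 : k = 2 := by
    have hpos : 0 < nS c 0 (c u) := by
      have : (0 : ℝ) < nS c 0 (c u) := by rw [f0]; positivity
      exact_mod_cast this
    have h3 : (1 : ℝ) ≤ nS c 0 (c u) := by exact_mod_cast hpos
    rw [f0] at h3
    have h4 : (k : ℝ) ≤ 2 := by nlinarith
    have h5 : k ≤ 2 := by exact_mod_cast h4
    omega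
  subst hk3
  have hα2 : α = 1 / 2 := by
    have : (2 : ℝ) * α = 1 := by exact_mod_cast hk
    linarith
  refine ⟨rfl, fun t => ⟨?_, ?_, ?_, ?_⟩⟩
  · have := f0 t
    rw [hα2] at this
    have h6 : (nS c 0 t : ℝ) = 1 := by rw [this]; norm_num
    exact_mod_cast h6
  · have := f1 t
    rw [hα2] at this
    have h6 : (nS c 1 t : ℝ) = 1 := by rw [this]; norm_num
    exact_mod_cast h6
  · have := hall (Sum.inr (0, 0)) t
    rw [nbrs_r, dg_r, hα2, if_pos rfl] at this
    have h6 : ((nB c 0 t + nB c 1 t : ℕ) : ℝ) = N := by rw [this]; push_cast; ring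
    exact_mod_cast h6
  · have := hall (Sum.inr (1, 0)) t
    rw [nbrs_r, dg_r, hα2, if_neg (by decide)] at this
    have h6 : ((nB c 1 t + nB c 2 t : ℕ) : ℝ) = N := by rw [this]; push_cast; ring
    exact_mod_cast h6

theorem mono_case (hN : 0 < N) {k : ℕ} (c : Vt N → Fin k) (h : IsFAT (Gr N) c)
    (A : Fin 3 → Fin k) (S : Fin 2 → Fin k) (hA : ∀ i a, c (Sum.inl (i, a)) = A i)
    (hS : ∀ j b, c (Sum.inr (j, b)) = S j) :
    (∀ v w, c v = c w) ∨ Setoid.ker c = Setoid.ker (side (N := N)) := by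
  obtain ⟨α, h0, h1, hα⟩ := h
  obtain ⟨a0⟩ : Nonempty (Fin N) := ⟨⟨0, hN⟩⟩
  have n0 : ∀ t, nS c 0 t = if S 0 = t then 2 else 0 := fun t => nS_const c 0 (S 0) t (hS 0)
  have n1 : ∀ t, nS c 1 t = if S 1 = t then 2 else 0 := fun t => nS_const c 1 (S 1) t (hS 1)
  by_cases hAS : A 0 = S 0
  · left
    have e1 := (hα (Sum.inl (0, a0)) (S 0)).2 (by rw [hA, hAS])
    rw [nbrs_l0, dg_l0, n0, if_pos rfl] at e1
    obtain ⟨β, hβ⟩ : ∃ β : ℝ, β = 1 - ((k : ℝ) - 1) * α := ⟨_, rfl⟩
    rw [← hβ] at e1
    have hβ1 : β = 1 := by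
      push_cast at e1
      linarith
    have e2 := (hα (Sum.inl (1, a0)) (A 1)).2 (by rw [hA])
    rw [nbrs_l1, dg_l1, n0, n1, ← hβ, hβ1, one_mul] at e2
    have e3 := (hα (Sum.inl (2, a0)) (A 2)).2 (by rw [hA])
    rw [nbrs_l2, dg_l2, n1, ← hβ, hβ1, one_mul] at e3
    norm_cast at e2 e3
    have h2 : S 0 = A 1 := by
      by_contra hne
      rw [if_neg hne] at e2
      by_cases h5 : S 1 = A 1
      · rw [if_pos h5] at e2
        omega
      · rw [if_neg h5] at e2
        omega
    have h3 : S 1 = A 1 := by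
      by_contra hne
      rw [if_neg hne] at e2
      split_ifs at e2; omega
    have h4 : S 1 = A 2 := by
      by_contra hne
      rw [if_neg hne] at e3
      omega
    have hall : ∀ v, c v = S 0 := by
      rintro (⟨i, a⟩ | ⟨j, b⟩)
      · rw [hA]
        fin_cases i
        · exact hAS
        · exact h2.symm
        · show A 2 = S 0
          rw [← h4, h3, h2]
      · rw [hS]
        fin_cases j
        · rfl
        · show S 1 = S 0
          rw [h3, h2]
    intro v w
    rw [hall, hall]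
  · right
    have e1 := (hα (Sum.inl (0, a0)) (S 0)).1 (by rw [hA]; exact hAS)
    rw [nbrs_l0, dg_l0, n0, if_pos rfl] at e1
    have hα1 : α = 1 := by
      push_cast at e1
      linarith
    have e2 := (hα (Sum.inl (0, a0)) (A 0)).2 (by rw [hA])
    rw [nbrs_l0, dg_l0, n0, if_neg (fun h => hAS h.symm), hα1] at e2
    have hk : (k : ℝ) = 2 := by
      push_cast at e2
      linarith
    have hk' : k = 2 := by exact_mod_cast hk
    subst hk'
    have hβ : (1 : ℝ) - (((2 : ℕ) : ℝ) - 1) * α = 0 := by rw [hα1]; norm_num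
    have e3 := (hα (Sum.inl (1, a0)) (A 1)).2 (by rw [hA])
    rw [nbrs_l1, dg_l1, n0, n1, hβ, zero_mul] at e3
    have e4 := (hα (Sum.inl (2, a0)) (A 2)).2 (by rw [hA])
    rw [nbrs_l2, dg_l2, n1, hβ, zero_mul] at e4
    norm_cast at e3 e4
    have h2 : S 0 ≠ A 1 := by
      intro heq
      rw [if_pos heq] at e3
      omega
    have h3 : S 1 ≠ A 1 := by
      intro heq
      rw [if_pos heq] at e3
      omega
    have h4 : S 1 ≠ A 2 := by
      intro heq
      rw [if_pos heq] at e4
      omega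
    have g1 : A 1 = A 0 := by omega
    have g2 : S 1 = S 0 := by omega
    have g3 : A 2 = A 0 := by omega
    have hl : ∀ p, c (Sum.inl p) = A 0 := by
      rintro ⟨i, a⟩
      rw [hA]
      fin_cases i
      · rfl
      · exact g1
      · exact g3
    have hr : ∀ q, c (Sum.inr q) = S 0 := by
      rintro ⟨j, b⟩
      rw [hS]
      fin_cases j
      · rfl
      · exact g2
    ext v w
    rw [Setoid.ker_def, Setoid.ker_def]
    rcases v with p | q <;> rcases w with p' | q'
    · simp [hl, side]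
    · simp [hl, hr, side, hAS]
    · simp [hl, hr, side, Ne.symm hAS]
    · simp [hr, side]

theorem classify (hN : 0 < N) {k : ℕ} (c : Vt N → Fin k) (h : IsFAT (Gr N) c) :
    (∀ v w, c v = c w) ∨ Setoid.ker c = Setoid.ker (side (N := N)) ∨
      ∃ c' : Vt N → Fin 2, Bal c' ∧ Setoid.ker c' = Setoid.ker c := by
  by_cases hmono : (∀ i a a', c (Sum.inl (i, a)) = c (Sum.inl (i, a'))) ∧
      (∀ j b b', c (Sum.inr (j, b)) = c (Sum.inr (j, b')))
  · rcases mono_case hN c h (fun i => c (Sum.inl (i, ⟨0, hN⟩))) (fun j => c (Sum.inr (j, 0)))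
      (fun i a => hmono.1 _ _ _) (fun j b => hmono.2 _ _ _) with h1 | h1
    · exact Or.inl h1
    · exact Or.inr (Or.inl h1)
  · right; right
    obtain ⟨u, u', h1, h2, h3, h4⟩ : ∃ u u' : Vt N, dg (Gr N) u = dg (Gr N) u' ∧
        0 < dg (Gr N) u ∧ (∀ t, nbrs (Gr N) c u t = nbrs (Gr N) c u' t) ∧ c u ≠ c u' := by
      rw [not_and_or] at hmono
      rcases hmono with hmono | hmono
      · push Not at hmono
        obtain ⟨i, a, a', hne⟩ := hmono
        refine ⟨Sum.inl (i, a), Sum.inl (i, a'), by rw [dg_l, dg_l], ?_, ?_, hne⟩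
        · rw [dg_l]; split_ifs <;> omega
        · intro t; rw [nbrs_l, nbrs_l]
      · push Not at hmono
        obtain ⟨j, b, b', hne⟩ := hmono
        refine ⟨Sum.inr (j, b), Sum.inr (j, b'), by rw [dg_r, dg_r], ?_, ?_, hne⟩
        · rw [dg_r]; omega
        · intro t; rw [nbrs_r, nbrs_r]
    obtain ⟨rfl, hb⟩ := twin_case hN c h u u' h1 h2 h3 h4
    exact ⟨c, hb, rfl⟩

/-! ### Irreducible colourings -/

theorem fat_bal {c : Vt N → Fin 2} (h : Bal c) : IsFAT (Gr N) c := by
  refine ⟨1 / 2, by norm_num, by norm_num, ?_⟩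
  have key : ∀ (v : Vt N) (t : Fin 2), (nbrs (Gr N) c v t : ℝ) = 1 / 2 * dg (Gr N) v := by
    rintro (⟨i, a⟩ | ⟨j, b⟩) t
    · obtain ⟨h1, h2, h3, h4⟩ := h t
      fin_cases i
      · show (nbrs (Gr N) c (Sum.inl (0, a)) t : ℝ) = 1 / 2 * dg (Gr N) (Sum.inl (0, a))
        rw [nbrs_l0, dg_l0, h1]; norm_num
      · show (nbrs (Gr N) c (Sum.inl (1, a)) t : ℝ) = 1 / 2 * dg (Gr N) (Sum.inl (1, a))
        rw [nbrs_l1, dg_l1, h1, h2]; norm_num
      · show (nbrs (Gr N) c (Sum.inl (2, a)) t : ℝ) = 1 / 2 * dg (Gr N) (Sum.inl (2, a))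
        rw [nbrs_l2, dg_l2, h2]; norm_num
    · obtain ⟨h1, h2, h3, h4⟩ := h t
      rw [nbrs_r, dg_r, h3, h4, ite_self]
      push_cast
      ring
  intro v t
  refine ⟨fun _ => key v t, fun _ => ?_⟩
  rw [key v t]
  norm_num

theorem fat_side : IsFAT (Gr N) (side (N := N)) := by
  refine ⟨1, by norm_num, le_rfl, ?_⟩
  intro v t
  have h : 1 - (((2 : ℕ) : ℝ) - 1) * 1 = 0 := by norm_num
  rw [h, zero_mul, one_mul]
  have e1 : ∀ w, (Gr N).Adj v w → side v ≠ side w := by
    intro w hw
    rcases v with p | q <;> rcases w with p' | q'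
    · exact hw.elim
    · simp [side]
    · simp [side]
    · exact hw.elim
  constructor
  · intro hne
    have : {w | (Gr N).Adj v w ∧ side w = t} = {w | (Gr N).Adj v w} := by
      ext w
      refine ⟨fun hw => hw.1, fun hw => ⟨hw, ?_⟩⟩
      have := e1 w hw
      omega
    unfold nbrs dg
    rw [this]
  · intro heq
    have : {w | (Gr N).Adj v w ∧ side w = t} = ∅ := by
      ext w
      refine ⟨?_, fun hw => hw.elim⟩
      rintro ⟨hw, hw'⟩
      exact e1 w hw (heq.trans hw'.symm)
    unfold nbrs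
    rw [this, Set.ncard_empty]
    norm_num

theorem bal_ne {c : Vt N → Fin 2} (h : Bal c) : c (Sum.inr (0, 0)) ≠ c (Sum.inr (0, 1)) := by
  classical
  intro heq
  have h1 := (h (c (Sum.inr (0, 0)))).1
  unfold nS at h1
  rw [Fin.sum_univ_two, if_pos rfl, if_pos heq.symm] at h1
  omega

theorem irr_side (hN : 0 < N) : Irreducible (Gr N) (Setoid.ker (side (N := N))) := by
  refine ⟨⟨2, side, fat_side, rfl⟩, ?_⟩
  rintro Q ⟨k, c, hc, rfl⟩ hle
  rcases classify hN c hc with h | h | ⟨c', hb, h⟩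
  · exfalso
    have : Setoid.ker (side (N := N)) (Sum.inl (0, ⟨0, hN⟩)) (Sum.inr (0, 0)) :=
      hle (h _ _)
    rw [Setoid.ker_def] at this
    simp [side] at this
  · exact h
  · exfalso
    obtain ⟨b, hb'⟩ := nS_pos c' 0 (c' (Sum.inl (0, ⟨0, hN⟩))) (by rw [(hb _).1]; omega)
    have : Setoid.ker (side (N := N)) (Sum.inr (0, b)) (Sum.inl (0, ⟨0, hN⟩)) := by
      apply hle
      rw [← h]
      exact hb'
    rw [Setoid.ker_def] at this
    simp [side] at this

theorem irr_bal (hN : 0 < N) {c : Vt N → Fin 2} (h : Bal c) :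
    Irreducible (Gr N) (Setoid.ker c) := by
  refine ⟨⟨2, c, fat_bal h, rfl⟩, ?_⟩
  rintro Q ⟨k, c', hc, rfl⟩ hle
  rcases classify hN c' hc with h' | h' | ⟨c'', hb, h'⟩
  · exact absurd (hle (h' _ _)) (bal_ne h)
  · exfalso
    apply bal_ne h
    apply hle
    rw [h', Setoid.ker_def]
    rfl
  · rw [← h'] at hle ⊢
    refine le_antisymm hle ?_
    intro x y hxy
    rw [Setoid.ker_def] at hxy ⊢
    by_contra hne
    apply bal_ne h
    have key : ∀ z, c z = c x := by
      intro z
      have : c'' z = c'' x ∨ c'' z = c'' y := by omega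
      rcases this with h1 | h1
      · exact hle h1
      · exact (hle h1 : c z = c y).trans hxy.symm
    rw [key, key (Sum.inr (0, 1))]

theorem irr_cases (hN : 0 < N) (P : Setoid (Vt N)) (h : Irreducible (Gr N) P) :
    P = Setoid.ker (side (N := N)) ∨ ∃ c : Vt N → Fin 2, Bal c ∧ P = Setoid.ker c := by
  obtain ⟨⟨k, c, hc, rfl⟩, hmax⟩ := h
  rcases classify hN c hc with h' | h' | ⟨c'', hb, h'⟩
  · left
    refine (hmax (Setoid.ker side) ⟨2, side, fat_side, rfl⟩ ?_).symm
    intro x y _
    exact h' x y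
  · exact Or.inl h'
  · exact Or.inr ⟨c'', hb, h'.symm⟩

/-! ### Representatives -/

/-- The balanced colouring with `x` vertices of colour `0` in the middle blob. -/
def rep (N x : ℕ) : Vt N → Fin 2
  | Sum.inl (i, a) => if i = 1 then (if a.val < x then 0 else 1)
      else (if a.val < N - x then 0 else 1)
  | Sum.inr (_, b) => b

theorem count_lt {x : ℕ} (hx : x ≤ N) : (∑ a : Fin N, if a.val < x then 1 else 0) = x := by
  rw [Fin.sum_univ_eq_sum_range (fun a => if a < x then 1 else 0) N, ← Finset.card_filter]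
  have : Finset.filter (fun a => a < x) (Finset.range N) = Finset.range x := by
    ext a
    simp only [Finset.mem_filter, Finset.mem_range]
    omega
  rw [this, Finset.card_range]

theorem count_ge {x : ℕ} (hx : x ≤ N) : (∑ a : Fin N, if a.val < x then 0 else 1) = N - x := by
  have h1 := count_lt hx
  have h2 : (∑ a : Fin N, if a.val < x then 1 else 0) + (∑ a : Fin N, if a.val < x then 0 else 1)
      = N := by
    rw [← Finset.sum_add_distrib]
    calc _ = ∑ _a : Fin N, 1 := Finset.sum_congr rfl fun a _ => by split_ifs <;> rfl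
      _ = N := by simp
  omega

theorem nB_rep_one (x : ℕ) (hx : x ≤ N) (t : Fin 2) :
    nB (rep N x) 1 t = if t = 0 then x else N - x := by
  classical
  unfold nB
  simp only [rep, if_true]
  fin_cases t
  · simp only [Fin.zero_eta, if_true]
    refine Eq.trans (Finset.sum_congr rfl fun a _ => ?_) (count_lt hx)
    by_cases h : a.val < x
    · simp [h]
    · simp [h]
  · simp only [Fin.mk_one, Fin.isValue, one_ne_zero, if_false]
    refine Eq.trans (Finset.sum_congr rfl fun a _ => ?_) (count_ge hx)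
    by_cases h : a.val < x
    · simp [h]
    · simp [h]

theorem nB_rep_ne (x : ℕ) (i : Fin 3) (hi : i ≠ 1) (t : Fin 2) :
    nB (rep N x) i t = if t = 0 then N - x else N - (N - x) := by
  classical
  unfold nB
  simp only [rep, if_neg hi]
  fin_cases t
  · simp only [Fin.zero_eta, if_true]
    refine Eq.trans (Finset.sum_congr rfl fun a _ => ?_) (count_lt (Nat.sub_le N x))
    by_cases h : a.val < N - x
    · simp [h]
    · simp [h]
  · simp only [Fin.mk_one, Fin.isValue, one_ne_zero, if_false]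
    refine Eq.trans (Finset.sum_congr rfl fun a _ => ?_) (count_ge (Nat.sub_le N x))
    by_cases h : a.val < N - x
    · simp [h]
    · simp [h]

theorem nS_rep (x : ℕ) (j : Fin 2) (t : Fin 2) : nS (rep N x) j t = 1 := by
  classical
  unfold nS
  rw [Fin.sum_univ_two]
  simp only [rep]
  fin_cases t <;> simp

theorem bal_rep (x : ℕ) (hx : x ≤ N) : Bal (rep N x) := by
  intro t
  refine ⟨nS_rep x 0 t, nS_rep x 1 t, ?_, ?_⟩
  · rw [nB_rep_one x hx, nB_rep_ne x 0 (by decide)]
    split_ifs <;> omega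
  · rw [nB_rep_one x hx, nB_rep_ne x 2 (by decide)]
    split_ifs <;> omega

theorem exists_perm {A : Type} [Fintype A] {B : Type} [DecidableEq B] (f g : A → B)
    (h : ∀ t, (∑ a, if f a = t then 1 else 0) = ∑ a, if g a = t then 1 else 0) :
    ∃ σ : Equiv.Perm A, ∀ a, f (σ a) = g a := by
  have hc : ∀ t, Nonempty ({a // g a = t} ≃ {a // f a = t}) := by
    intro t
    refine ⟨Fintype.equivOfCardEq ?_⟩
    rw [Fintype.card_subtype, Fintype.card_subtype, Finset.card_filter, Finset.card_filter, h]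
  have e : ∀ t, {a // g a = t} ≃ {a // f a = t} := fun t => (hc t).some
  refine ⟨(Equiv.sigmaFiberEquiv g).symm.trans ((Equiv.sigmaCongrRight e).trans
    (Equiv.sigmaFiberEquiv f)), fun a => ?_⟩
  exact (e (g a) ⟨a, rfl⟩).2

/-- The automorphism permuting the vertices in the blobs. -/
def blobIso (σ : Fin 3 → Equiv.Perm (Fin N)) (τ : Fin 2 → Equiv.Perm (Fin 2)) : Gr N ≃g Gr N where
  toEquiv := Equiv.sumCongr
    { toFun := fun p => (p.1, σ p.1 p.2)
      invFun := fun p => (p.1, (σ p.1).symm p.2)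
      left_inv := fun p => by simp
      right_inv := fun p => by simp }
    { toFun := fun p => (p.1, τ p.1 p.2)
      invFun := fun p => (p.1, (τ p.1).symm p.2)
      left_inv := fun p => by simp
      right_inv := fun p => by simp }
  map_rel_iff' := by
    rintro (p | q) (p' | q')
    · exact Iff.rfl
    · exact Iff.rfl
    · exact Iff.rfl
    · exact Iff.rfl

theorem nB_total (c : Vt N → Fin 2) (i : Fin 3) : nB c i 0 + nB c i 1 = N := by
  classical
  unfold nB
  rw [← Finset.sum_add_distrib]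
  calc _ = ∑ _a : Fin N, 1 := Finset.sum_congr rfl fun a _ => by
        generalize c (Sum.inl (i, a)) = y
        fin_cases y <;> simp
    _ = N := by simp

theorem bal_equiv {c : Vt N → Fin 2} (h : Bal c) (x : ℕ) (hxd : nB c 1 0 = x) :
    ∃ φ : Gr N ≃g Gr N, ∀ v, rep N x (φ v) = c v := by
  classical
  have hx : x ≤ N := by
    have := (h 0).2.2.1
    omega
  have hb := bal_rep _ hx
  have h1 : ∀ t, nB (rep N x) 1 t = nB c 1 t := by
    intro t
    rw [nB_rep_one _ hx]
    have := nB_total c 1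
    fin_cases t
    · exact hxd.symm
    · simp only [Fin.mk_one, Fin.isValue, one_ne_zero, if_false]
      omega
  have h0 : ∀ t, nB (rep N x) 0 t = nB c 0 t := by
    intro t
    have e1 := (hb t).2.2.1
    have e2 := (h t).2.2.1
    have e3 := h1 t
    omega
  have h2 : ∀ t, nB (rep N x) 2 t = nB c 2 t := by
    intro t
    have e1 := (hb t).2.2.2
    have e2 := (h t).2.2.2
    have e3 := h1 t
    omega
  have hall : ∀ i t, nB (rep N x) i t = nB c i t := by
    intro i t
    fin_cases i
    · exact h0 t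
    · exact h1 t
    · exact h2 t
  have hallS : ∀ j t, nS (rep N x) j t = nS c j t := by
    intro j t
    rw [nS_rep]
    fin_cases j
    · exact (h t).1.symm
    · exact (h t).2.1.symm
  choose σ hσ using fun i => exists_perm (fun a => rep N x (Sum.inl (i, a)))
    (fun a => c (Sum.inl (i, a))) (fun t => by
      have := hall i t
      unfold nB at this
      convert this)
  choose τ hτ using fun j => exists_perm (fun b => rep N x (Sum.inr (j, b)))
    (fun b => c (Sum.inr (j, b))) (fun t => by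
      have := hallS j t
      unfold nS at this
      convert this)
  refine ⟨blobIso σ τ, ?_⟩
  rintro (⟨i, a⟩ | ⟨j, b⟩)
  · exact hσ i a
  · exact hτ j b

theorem ker_swap (c : Vt N → Fin 2) : Setoid.ker (fun v => 1 - c v) = Setoid.ker c := by
  ext v w
  rw [Setoid.ker_def, Setoid.ker_def]
  generalize c v = y
  generalize c w = z
  revert y z
  decide

theorem swap_count (c : Vt N → Fin 2) :
    (∀ i t, nB (fun v => 1 - c v) i t = nB c i (1 - t)) ∧
    ∀ j t, nS (fun v => 1 - c v) j t = nS c j (1 - t) := by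
  classical
  have key : ∀ y t : Fin 2, (1 - y = t ↔ y = 1 - t) := by decide
  constructor
  · intro i t
    unfold nB
    simp only [key]
  · intro j t
    unfold nS
    simp only [key]

theorem bal_swap {c : Vt N → Fin 2} (h : Bal c) : Bal (fun v => 1 - c v) := by
  intro t
  obtain ⟨h1, h2⟩ := swap_count c
  rw [h1, h1, h1, h2, h2]
  exact h (1 - t)

/-! ### Counting -/

/-- The representatives of the classes. -/
noncomputable def reps (M : ℕ) (hM : 1 ≤ M) : Option (Fin M) →
    {P : Setoid (Vt (2 * M - 1)) // Irreducible (Gr (2 * M - 1)) P}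
  | none => ⟨Setoid.ker side, irr_side (by omega)⟩
  | some x => ⟨Setoid.ker (rep (2 * M - 1) x.val), irr_bal (by omega) (bal_rep _ (by
      have := x.isLt
      omega))⟩

theorem reps_surj (M : ℕ) (hM : 1 ≤ M)
    (P : {P : Setoid (Vt (2 * M - 1)) // Irreducible (Gr (2 * M - 1)) P}) :
    ∃ o, (autSetoid (Gr (2 * M - 1))) P (reps M hM o) := by
  obtain ⟨P, hP⟩ := P
  rcases irr_cases (by omega) P hP with h | ⟨c, hc, h⟩
  · subst h
    exact ⟨none, Iso.refl, fun x y => Iff.rfl⟩
  · subst h
    obtain ⟨c', hc', hk, hlt⟩ : ∃ c' : Vt (2 * M - 1) → Fin 2, Bal c' ∧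
        Setoid.ker c' = Setoid.ker c ∧ nB c' 1 0 < M := by
      by_cases hlt : nB c 1 0 < M
      · exact ⟨c, hc, rfl, hlt⟩
      · refine ⟨fun v => 1 - c v, bal_swap hc, ker_swap c, ?_⟩
        rw [(swap_count c).1]
        have := nB_total c 1
        simp only [sub_zero]
        omega
    obtain ⟨φ, hφ⟩ := bal_equiv hc' _ rfl
    refine ⟨some ⟨_, hlt⟩, φ, fun x y => ?_⟩
    show Setoid.ker c x y ↔ Setoid.ker (rep (2 * M - 1) (nB c' 1 0)) (φ x) (φ y)
    rw [← hk, Setoid.ker_def, Setoid.ker_def, hφ, hφ]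

theorem iso_mid (hN : Odd N) (φ : Gr N ≃g Gr N) (v : Vt N) :
    (∃ a, v = Sum.inl (1, a)) ↔ ∃ a, φ v = Sum.inl (1, a) := by
  have key : ∀ w : Vt N, (∃ a, w = Sum.inl (1, a)) ↔ dg (Gr N) w = 4 := by
    rintro (⟨i, a⟩ | ⟨j, b⟩)
    · rw [dg_l]
      by_cases hi : i = 1
      · subst hi
        simp
      · rw [if_neg hi]
        simp [hi]
    · rw [dg_r]
      obtain ⟨m, rfl⟩ := hN
      constructor
      · rintro ⟨a, ha⟩
        exact absurd ha (by simp)
      · intro h
        omega
  have hd : dg (Gr N) (φ v) = dg (Gr N) v := by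
    unfold dg
    have : {w | (Gr N).Adj (φ v) w} = φ '' {w | (Gr N).Adj v w} := by
      ext w
      constructor
      · intro h
        refine ⟨φ.symm w, ?_, φ.apply_symm_apply w⟩
        have h' : (Gr N).Adj (φ v) w := h
        show (Gr N).Adj v (φ.symm w)
        rw [← φ.map_adj_iff, φ.apply_symm_apply]
        exact h'
      · rintro ⟨u, hu, rfl⟩
        exact φ.map_adj_iff.2 hu
    rw [this, Set.ncard_image_of_injective _ φ.injective]
  rw [key, key, hd]

/-- The number of the vertices of the middle blob related to `v`. -/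
noncomputable def midClass (P : Setoid (Vt N)) (v : Vt N) : ℕ :=
  {w | (∃ a, w = Sum.inl (1, a)) ∧ P v w}.ncard

theorem midClass_iso (hN : Odd N) (φ : Gr N ≃g Gr N) (P Q : Setoid (Vt N))
    (h : ∀ x y, P x y ↔ Q (φ x) (φ y)) (v : Vt N) : midClass Q (φ v) = midClass P v := by
  unfold midClass
  have : {w | (∃ a, w = Sum.inl (1, a)) ∧ Q (φ v) w} =
      φ '' {w | (∃ a, w = Sum.inl (1, a)) ∧ P v w} := by
    ext w
    constructor
    · rintro ⟨h1, h2⟩
      refine ⟨φ.symm w, ⟨?_, ?_⟩, φ.apply_symm_apply w⟩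
      · rw [iso_mid hN φ, φ.apply_symm_apply]
        exact h1
      · rw [h, φ.apply_symm_apply]
        exact h2
    · rintro ⟨u, ⟨h1, h2⟩, rfl⟩
      exact ⟨(iso_mid hN φ u).1 h1, (h _ _).1 h2⟩
  rw [this, Set.ncard_image_of_injective _ φ.injective]

theorem midClass_ker (c : Vt N → Fin 2) (v : Vt N) :
    midClass (Setoid.ker c) v = nB c 1 (c v) := by
  classical
  unfold midClass
  rw [ncard_sum, Fintype.sum_sum_type, Fintype.sum_prod_type]
  simp only [Sum.inl.injEq, Prod.mk.injEq, reduceCtorEq, exists_false, false_and, if_false,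
    Finset.sum_const_zero, add_zero, Setoid.ker_def]
  rw [Fin.sum_univ_three]
  simp only [nB]
  simp [eq_comm]

theorem reps_inj (M : ℕ) (hM : 1 ≤ M) (o o' : Option (Fin M))
    (h : (autSetoid (Gr (2 * M - 1))) (reps M hM o) (reps M hM o')) : o = o' := by
  have hodd : Odd (2 * M - 1) := ⟨M - 1, by omega⟩
  have hN : 0 < 2 * M - 1 := by omega
  have bip : ∀ x : Fin M, ¬ (autSetoid (Gr (2 * M - 1))) (reps M hM none) (reps M hM (some x)) := by
    rintro x ⟨φ, hφ⟩
    have hb : Bal (rep (2 * M - 1) x.val) := bal_rep _ (by have := x.isLt; omega)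
    -- there is an adjacent pair of related vertices
    obtain ⟨b, hb'⟩ := nS_pos (rep (2 * M - 1) x.val) 0
      (rep (2 * M - 1) x.val (Sum.inl (0, ⟨0, hN⟩))) (by rw [(hb _).1]; omega)
    have h1 : (Gr (2 * M - 1)).Adj (φ.symm (Sum.inr (0, b)))
        (φ.symm (Sum.inl (0, ⟨0, hN⟩))) := by
      rw [φ.symm.map_adj_iff]
      exact Or.inl rfl
    have h2 : Setoid.ker (side (N := 2 * M - 1)) (φ.symm (Sum.inr (0, b)))
        (φ.symm (Sum.inl (0, ⟨0, hN⟩))) := by
      refine (hφ _ _).2 ?_
      rw [φ.apply_symm_apply, φ.apply_symm_apply]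
      exact hb'
    rw [Setoid.ker_def] at h2
    revert h1 h2
    generalize φ.symm (Sum.inr (0, b)) = u
    generalize φ.symm (Sum.inl (0, ⟨0, hN⟩)) = w
    intro h1 h2
    rcases u with p | q <;> rcases w with p' | q'
    · exact h1.elim
    · simp [side] at h2
    · simp [side] at h2
    · exact h1.elim
  rcases o with _ | x <;> rcases o' with _ | y
  · rfl
  · exact absurd h (bip y)
  · exact absurd ((autSetoid _).symm h) (bip x)
  · congr 1
    apply Fin.ext
    obtain ⟨φ, hφ⟩ := h
    have hx := x.isLt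
    have hy := y.isLt
    have h1 := midClass_iso hodd φ (Setoid.ker (rep (2 * M - 1) x.val))
      (Setoid.ker (rep (2 * M - 1) y.val)) hφ (Sum.inr (0, 1))
    rw [midClass_ker, midClass_ker, nB_rep_one _ (by omega), nB_rep_one _ (by omega)] at h1
    have h2 : rep (2 * M - 1) x.val (Sum.inr (0, 1)) = 1 := rfl
    rw [h2, if_neg (show ¬ ((1 : Fin 2) = 0) by decide)] at h1
    split_ifs at h1 <;> omega

theorem connected (hN : 0 < N) : (Gr N).Connected := by
  have hne : Nonempty (Vt N) := ⟨Sum.inr (0, 0)⟩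
  refine ⟨fun u v => ?_⟩
  have a0 : Fin N := ⟨0, hN⟩
  have s0 : ∀ b, (Gr N).Reachable (Sum.inr (0, b)) (Sum.inl (1, a0)) := fun b =>
    Adj.reachable (Or.inr rfl)
  have s1 : ∀ b, (Gr N).Reachable (Sum.inr (1, b)) (Sum.inl (1, a0)) := fun b =>
    Adj.reachable (Or.inl rfl)
  have key : ∀ u, (Gr N).Reachable u (Sum.inl (1, a0)) := by
    rintro (⟨i, a⟩ | ⟨j, b⟩)
    · fin_cases i
      · exact (Adj.reachable (v := Sum.inr (0, 0)) (Or.inl rfl)).trans (s0 0)
      · exact (Adj.reachable (v := Sum.inr (0, 0)) (Or.inr rfl)).trans (s0 0)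
      · exact (Adj.reachable (v := Sum.inr (1, 0)) (Or.inr rfl)).trans (s1 0)
    · fin_cases j
      · exact s0 b
      · exact s1 b
  exact (key u).trans (key v).symm

theorem num_eq (M : ℕ) (hM : 1 ≤ M) : numIrreducible (Gr (2 * M - 1)) = M + 1 := by
  unfold numIrreducible
  have hbij : Function.Bijective (fun o => (Quotient.mk (autSetoid (Gr (2 * M - 1)))
      (reps M hM o))) := by
    constructor
    · intro o o' h
      exact reps_inj M hM o o' (Quotient.exact h)
    · intro q
      induction q using Quotient.inductionOn with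
      | h P =>
        obtain ⟨o, ho⟩ := reps_surj M hM P
        exact ⟨o, (Quotient.sound ho).symm⟩
  rw [← Nat.card_congr (Equiv.ofBijective _ hbij)]
  simp

theorem fat_two : IsFAT (⊤ : SimpleGraph (Fin 2)) (fun v : Fin 2 => v) := by
  refine ⟨1, zero_le_one, le_rfl, fun v i => ?_⟩
  have hd : dg (⊤ : SimpleGraph (Fin 2)) v = 1 := by
    unfold dg
    rw [Set.ncard_eq_one]
    refine ⟨1 - v, ?_⟩
    ext w
    show v ≠ w ↔ w = 1 - v
    revert v w
    decide
  have h : 1 - (((2 : ℕ) : ℝ) - 1) * 1 = 0 := by norm_num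
  rw [hd, h]
  constructor
  · intro hne
    have : nbrs (⊤ : SimpleGraph (Fin 2)) (fun v : Fin 2 => v) v i = 1 := by
      unfold nbrs
      rw [Set.ncard_eq_one]
      refine ⟨i, ?_⟩
      ext w
      show (v ≠ w ∧ w = i) ↔ w = i
      refine ⟨fun h => h.2, fun h => ⟨?_, h⟩⟩
      rw [h]
      exact hne
    rw [this]
    norm_num
  · intro heq
    have : nbrs (⊤ : SimpleGraph (Fin 2)) (fun v : Fin 2 => v) v i = 0 := by
      unfold nbrs
      rw [Set.ncard_eq_zero]
      ext w
      show (v ≠ w ∧ w = i) ↔ False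
      refine ⟨fun h => h.1 (heq.trans h.2.symm), fun h => h.elim⟩
    rw [this]
    norm_num

theorem num_one : numIrreducible (⊤ : SimpleGraph (Fin 2)) = 1 := by
  have hbot : FATPartition (⊤ : SimpleGraph (Fin 2)) ⊥ := by
    refine ⟨2, fun v => v, fat_two, ?_⟩
    ext x y
    exact Iff.rfl
  unfold numIrreducible
  rw [Nat.card_eq_one_iff_unique]
  constructor
  · refine ⟨fun p q => ?_⟩
    induction p using Quotient.inductionOn with
    | h P =>
      induction q using Quotient.inductionOn with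
      | h Q =>
        have h1 : P = Q := by
          apply Subtype.ext
          rw [← P.2.2 ⊥ hbot bot_le, ← Q.2.2 ⊥ hbot bot_le]
        rw [h1]
  · exact ⟨Quotient.mk _ ⟨⊥, hbot, fun Q _ h => le_bot_iff.1 h⟩⟩

/-- For every `b ≥ 1` there is a connected finite simple graph with exactly `b` irreducible FAT
colourings (as partitions of the vertex set, up to automorphisms of the graph). -/
theorem result (b : ℕ) (hb : 1 ≤ b) : ∃ (V : Type) (_ : Fintype V) (G : SimpleGraph V),
    G.Connected ∧ numIrreducible G = b := by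
  rcases Nat.lt_or_ge 1 b with h | h
  · refine ⟨Vt (2 * (b - 1) - 1), inferInstance, Gr (2 * (b - 1) - 1), connected (by omega), ?_⟩
    rw [num_eq (b - 1) (by omega)]
    omega
  · obtain rfl : b = 1 := by omega
    exact ⟨Fin 2, inferInstance, ⊤, connected_top, num_one⟩

end Pool.Agent.Results.MP_48b99b_co.ExactlyB
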